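import Pool.Agent.Y649.ETR.Stm

/-!
# The wreath product of two symmetric schemes is a symmetric scheme
-/

namespace Pool.Agent.Y659.ETRWR

open Finset Pool.Agent.Results.MP_44674b_co.WreathExact Pool.Agent.Y649.ETR

variable {X Y : Type} [Fintype X] [DecidableEq X] [Fintype Y] [DecidableEq Y] {d e : ℕ}

lemma sumreg (S : SymScheme X d) (φ ψ : Fin (d + 1) → ℕ) {x y x' y' : X}
    (h : S.c x y = S.c x' y') :
    ∑ u, φ (S.c x u) * ψ (S.c u y) = ∑ u, φ (S.c x' u) * ψ (S.c u y') := by
  have key : ∀ a b : X, ∑ u, φ (S.c a u) * ψ (S.c u b) =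
      ∑ i, ∑ j, φ i * ψ j * (univ.filter fun z => S.c a z = i ∧ S.c z b = j).card := by
    intro a b
    have h1 : ∀ u, φ (S.c a u) * ψ (S.c u b) =
        ∑ i, ∑ j, φ i * ψ j * (if S.c a u = i ∧ S.c u b = j then 1 else 0) := by
      intro u
      rw [Finset.sum_eq_single (S.c a u), Finset.sum_eq_single (S.c u b)]
      · simp
      · intro j _ hj
        rw [if_neg (fun hc => hj hc.2.symm), mul_zero]
      · intro hh; exact absurd (mem_univ _) hh
      · intro i _ hi
        refine Finset.sum_eq_zero fun j _ => ?_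
        rw [if_neg (fun hc => hi hc.1.symm), mul_zero]
      · intro hh; exact absurd (mem_univ _) hh
    simp_rw [h1, Finset.card_filter, Finset.mul_sum]
    rw [Finset.sum_comm]
    refine Finset.sum_congr rfl fun i _ => ?_
    rw [Finset.sum_comm]
  rw [key, key]
  refine Finset.sum_congr rfl fun i _ => Finset.sum_congr rfl fun j _ => ?_
  rw [S.regular i j x y x' y' h]

lemma rowsum (S : SymScheme X d) (φ : Fin (d + 1) → ℕ) (x x' : X) :
    ∑ u, φ (S.c x u) = ∑ u, φ (S.c x' u) := by
  have h : S.c x x = S.c x' x' := by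
    rw [(S.diag x x).mpr rfl, (S.diag x' x').mpr rfl]
  simpa using sumreg S φ (fun _ => 1) h

lemma colsum (S : SymScheme X d) (φ : Fin (d + 1) → ℕ) (x x' : X) :
    ∑ u, φ (S.c u x) = ∑ u, φ (S.c u x') := by
  have h : S.c x x = S.c x' x' := by
    rw [(S.diag x x).mpr rfl, (S.diag x' x').mpr rfl]
  simpa using sumreg S (fun _ => 1) φ h

/-- the part of a function of the colours inside of the blocks -/
def inn (d e : ℕ) (Φ : Fin (d + e + 1) → ℕ) (i : Fin (d + 1)) : ℕ :=
  Φ (Fin.castLE (by omega) i)

/-- the part of a function of the colours outside of the blocks -/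
def out (d e : ℕ) (Φ : Fin (d + e + 1) → ℕ) (i : Fin (e + 1)) : ℕ :=
  if i = 0 then 0 else Φ ⟨d + i.val, by have := i.isLt; omega⟩

lemma phi_wrc (S : SymScheme X d) (T : SymScheme Y e) (Φ : Fin (d + e + 1) → ℕ) (p q : X × Y) :
    Φ (wrc S.c T.c p q) =
      (if p.2 = q.2 then inn d e Φ (S.c p.1 q.1) else 0) + out d e Φ (T.c p.2 q.2) := by
  unfold wrc inn out
  by_cases h : p.2 = q.2
  · have h0 : T.c p.2 q.2 = 0 := (T.diag _ _).mpr h
    rw [if_pos h, if_pos h, if_pos h0, add_zero]
  · have h0 : T.c p.2 q.2 ≠ 0 := fun hc => h ((T.diag _ _).mp hc)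
    rw [if_neg h, if_neg h, if_neg h0, zero_add]

lemma wsum (S : SymScheme X d) (T : SymScheme Y e) (Φ Ψ : Fin (d + e + 1) → ℕ) (p q : X × Y) :
    ∑ z, Φ (wrc S.c T.c p z) * Ψ (wrc S.c T.c z q) =
      (if p.2 = q.2 then ∑ u, inn d e Φ (S.c p.1 u) * inn d e Ψ (S.c u q.1) else 0)
      + (∑ u, inn d e Φ (S.c p.1 u)) * out d e Ψ (T.c p.2 q.2)
      + (∑ u, inn d e Ψ (S.c u q.1)) * out d e Φ (T.c p.2 q.2)
      + Fintype.card X * ∑ w, out d e Φ (T.c p.2 w) * out d e Ψ (T.c w q.2) := by
  rw [Fintype.sum_prod_type_right]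
  have h1 : ∀ w : Y, ∑ u : X, Φ (wrc S.c T.c p (u, w)) * Ψ (wrc S.c T.c (u, w) q) =
      (if p.2 = w then (if w = q.2 then ∑ u, inn d e Φ (S.c p.1 u) * inn d e Ψ (S.c u q.1)
        else 0) else 0)
      + (if p.2 = w then (∑ u, inn d e Φ (S.c p.1 u)) * out d e Ψ (T.c w q.2) else 0)
      + (if w = q.2 then (∑ u, inn d e Ψ (S.c u q.1)) * out d e Φ (T.c p.2 w) else 0)
      + Fintype.card X * (out d e Φ (T.c p.2 w) * out d e Ψ (T.c w q.2)) := by
    intro w
    have h2 : ∀ u : X, Φ (wrc S.c T.c p (u, w)) * Ψ (wrc S.c T.c (u, w) q) =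
        (if p.2 = w then (if w = q.2 then inn d e Φ (S.c p.1 u) * inn d e Ψ (S.c u q.1)
          else 0) else 0)
        + (if p.2 = w then inn d e Φ (S.c p.1 u) * out d e Ψ (T.c w q.2) else 0)
        + (if w = q.2 then inn d e Ψ (S.c u q.1) * out d e Φ (T.c p.2 w) else 0)
        + out d e Φ (T.c p.2 w) * out d e Ψ (T.c w q.2) := by
      intro u
      rw [phi_wrc S T Φ, phi_wrc S T Ψ]
      dsimp only
      by_cases a : p.2 = w
      · by_cases b : w = q.2
        · rw [if_pos a, if_pos b, if_pos a, if_pos b, if_pos a, if_pos b]; ring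
        · rw [if_pos a, if_neg b, if_pos a, if_neg b, if_pos a, if_neg b]; ring
      · by_cases b : w = q.2
        · rw [if_neg a, if_pos b, if_neg a, if_neg a, if_pos b]; ring
        · rw [if_neg a, if_neg b, if_neg a, if_neg a, if_neg b]; ring
    rw [Finset.sum_congr rfl fun u _ => h2 u]
    have hs : ∀ (P : Prop) [Decidable P] (f : X → ℕ),
        ∑ x, (if P then f x else 0) = if P then ∑ x, f x else 0 := by
      intro P _ f
      split_ifs <;> simp
    simp only [Finset.sum_add_distrib, Finset.sum_const, Finset.card_univ, smul_eq_mul, hs,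
      Finset.sum_mul]
  rw [Finset.sum_congr rfl fun w _ => h1 w]
  simp only [Finset.sum_add_distrib, Finset.sum_ite_eq, Finset.sum_ite_eq', mem_univ, if_true,
    Finset.mul_sum]

theorem main : S_WR := by
  intro X Y _ _ _ _ d e S T
  refine ⟨⟨wrc S.c T.c, ?_, ?_, ?_, ?_⟩, rfl⟩
  · intro i
    by_cases hi : i.val ≤ d
    · obtain ⟨x, x', hx⟩ := S.surj ⟨i.val, by omega⟩
      obtain ⟨y, _, _⟩ := T.surj 0
      refine ⟨(x, y), (x', y), ?_⟩
      unfold wrc
      rw [if_pos rfl]
      dsimp only
      rw [hx]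
      ext
      simp
    · obtain ⟨y, y', hy⟩ := T.surj ⟨i.val - d, by have := i.isLt; omega⟩
      obtain ⟨x, _, _⟩ := S.surj 0
      have hne : y ≠ y' := by
        intro h
        have h0 := (T.diag y y').mpr h
        rw [hy] at h0
        have := congrArg Fin.val h0
        simp at this
        omega
      refine ⟨(x, y), (x, y'), ?_⟩
      unfold wrc
      rw [if_neg hne]
      dsimp only
      ext
      simp only [hy]
      omega
  · intro p q
    unfold wrc
    by_cases h : p.2 = q.2
    · rw [if_pos h]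
      constructor
      · intro h0
        have h1 : S.c p.1 q.1 = 0 := by
          ext
          have := congrArg Fin.val h0
          simpa using this
        exact Prod.ext ((S.diag _ _).mp h1) h
      · intro h0
        rw [h0, (S.diag _ _).mpr rfl]
        rfl
    · rw [if_neg h]
      constructor
      · intro h0
        have h1 := congrArg Fin.val h0
        simp at h1
        exact absurd ((T.diag _ _).mp h1.2) h
      · intro h0
        exact absurd (congrArg Prod.snd h0) h
  · intro p q
    unfold wrc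
    by_cases h : p.2 = q.2
    · rw [if_pos h, if_pos h.symm, S.symm]
    · rw [if_neg h, if_neg (Ne.symm h)]
      simp only [T.symm p.2 q.2]
  · intro i j p q p' q' hc
    have hT : T.c p.2 q.2 = T.c p'.2 q'.2 := by
      unfold wrc at hc
      by_cases h : p.2 = q.2 <;> by_cases h' : p'.2 = q'.2
      · rw [(T.diag _ _).mpr h, (T.diag _ _).mpr h']
      · rw [if_pos h, if_neg h'] at hc
        have h1 := congrArg Fin.val hc
        simp only [Fin.val_castLE] at h1
        have h2 := (S.c p.1 q.1).isLt
        have h3 : (T.c p'.2 q'.2).val ≠ 0 := by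
          intro h4
          exact h' ((T.diag _ _).mp (Fin.ext h4))
        omega
      · rw [if_neg h, if_pos h'] at hc
        have h1 := congrArg Fin.val hc
        simp only [Fin.val_castLE] at h1
        have h2 := (S.c p'.1 q'.1).isLt
        have h3 : (T.c p.2 q.2).val ≠ 0 := by
          intro h4
          exact h ((T.diag _ _).mp (Fin.ext h4))
        omega
      · rw [if_neg h, if_neg h'] at hc
        have h1 := congrArg Fin.val hc
        simp only at h1
        ext
        omega
    have hiff : p.2 = q.2 ↔ p'.2 = q'.2 := by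
      rw [← T.diag, ← T.diag, hT]
    have hS : p.2 = q.2 → S.c p.1 q.1 = S.c p'.1 q'.1 := by
      intro h
      unfold wrc at hc
      rw [if_pos h, if_pos (hiff.mp h)] at hc
      ext
      have h1 := congrArg Fin.val hc
      simpa using h1
    have hcount : ∀ a b : X × Y,
        (univ.filter fun z => wrc S.c T.c a z = i ∧ wrc S.c T.c z b = j).card =
        ∑ z, (fun k => if k = i then 1 else 0) (wrc S.c T.c a z) *
          (fun k => if k = j then 1 else 0) (wrc S.c T.c z b) := by
      intro a b
      rw [Finset.card_filter]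
      refine Finset.sum_congr rfl fun z _ => ?_
      dsimp only
      by_cases h1 : wrc S.c T.c a z = i <;> by_cases h2 : wrc S.c T.c z b = j <;> simp [h1, h2]
    rw [hcount, hcount, wsum S T (fun k => if k = i then 1 else 0) (fun k => if k = j then 1 else 0),
      wsum S T (fun k => if k = i then 1 else 0) (fun k => if k = j then 1 else 0), hT, rowsum S _ p.1 p'.1, colsum S _ q.1 q'.1,
      sumreg T _ _ hT]
    by_cases h : p.2 = q.2
    · rw [if_pos h, if_pos (hiff.mp h), sumreg S _ _ (hS h)]
    · rw [if_neg h, if_neg (fun hc => h (hiff.mpr hc))]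

end Pool.Agent.Y659.ETRWR
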